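import Pool.Agent.Y266.LS.Stm

/-!
# LS-DIAG: diagonalisation of the Gram matrix (helper908)
-/

set_option autoImplicit false

open Matrix

namespace Pool.Agent.Y266.LS

section
variable {𝕜 : Type} [RCLike 𝕜] {n k : ℕ}

theorem diag_fsq_eq (A : Matrix (Fin n) (Fin n) 𝕜) : fsq A = RCLike.re (trace (Aᴴ * A)) := by
  unfold fsq
  rw [Matrix.trace, map_sum, Finset.sum_comm]
  refine Finset.sum_congr rfl fun j _ => ?_
  rw [Matrix.diag_apply, Matrix.mul_apply, map_sum]
  refine Finset.sum_congr rfl fun i _ => ?_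
  rw [Matrix.conjTranspose_apply, RCLike.star_def, RCLike.conj_mul]
  norm_cast

/-- the linear change of the family -/
noncomputable def diag_fam (U : Matrix (Fin k) (Fin k) 𝕜) (C : Fin k → Matrix (Fin n) (Fin n) 𝕜)
    (i : Fin k) : Matrix (Fin n) (Fin n) 𝕜 := ∑ a, U a i • C a

theorem diag_trace (U : Matrix (Fin k) (Fin k) 𝕜) (C : Fin k → Matrix (Fin n) (Fin n) 𝕜)
    (i j : Fin k) : trace ((diag_fam U C i)ᴴ * diag_fam U C j) = (Uᴴ * gram C * U) i j := by
  unfold diag_fam
  rw [Matrix.conjTranspose_sum, Finset.sum_mul, Matrix.trace_sum, Matrix.mul_apply]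
  simp only [Matrix.mul_apply, Finset.mul_sum, Finset.sum_mul, Matrix.trace_sum]
  rw [Finset.sum_comm]
  refine Finset.sum_congr rfl fun b _ => Finset.sum_congr rfl fun a _ => ?_
  rw [Matrix.conjTranspose_smul, Matrix.smul_mul, Matrix.mul_smul, Matrix.trace_smul,
    Matrix.trace_smul, Matrix.conjTranspose_apply]
  simp only [gram, Matrix.of_apply, smul_eq_mul]
  ring

theorem diag_comm (U : Matrix (Fin k) (Fin k) 𝕜) (C : Fin k → Matrix (Fin n) (Fin n) 𝕜)
    (B : Matrix (Fin n) (Fin n) 𝕜) (i : Fin k) :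
    comm B (diag_fam U C i) = diag_fam U (fun a => comm B (C a)) i := by
  unfold comm diag_fam
  rw [Finset.mul_sum, Finset.sum_mul, ← Finset.sum_sub_distrib]
  refine Finset.sum_congr rfl fun a _ => ?_
  rw [Matrix.mul_smul, Matrix.smul_mul, smul_sub]

theorem diag_unit (U : Matrix (Fin k) (Fin k) 𝕜) (hU : U * Uᴴ = 1) (x : Fin k → 𝕜) :
    ∑ i, ‖∑ a, U a i * x a‖ ^ 2 = ∑ a, ‖x a‖ ^ 2 := by
  have h1 : ∀ z : 𝕜, ((‖z‖ ^ 2 : ℝ) : 𝕜) = z * star z := by
    intro z
    rw [RCLike.star_def, RCLike.mul_conj]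
    norm_cast
  have h2 : ((∑ i, ‖∑ a, U a i * x a‖ ^ 2 : ℝ) : 𝕜) = ((∑ a, ‖x a‖ ^ 2 : ℝ) : 𝕜) := by
    push_cast
    have h3 : ∀ i, ((‖∑ a, U a i * x a‖ : 𝕜) ^ 2) =
        ∑ a, ∑ b, x a * star (x b) * (U a i * star (U b i)) := by
      intro i
      have := h1 (∑ a, U a i * x a)
      push_cast at this
      rw [this, star_sum, Finset.sum_mul_sum]
      refine Finset.sum_congr rfl fun a _ => Finset.sum_congr rfl fun b _ => ?_
      rw [star_mul']
      ring
    simp only [h3]
    rw [Finset.sum_comm]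
    refine Finset.sum_congr rfl fun a _ => ?_
    rw [Finset.sum_comm]
    have h4 : ∀ b, ∑ i, x a * star (x b) * (U a i * star (U b i)) =
        x a * star (x b) * (if a = b then 1 else 0) := by
      intro b
      rw [← Finset.mul_sum]
      congr 1
      have := congrFun (congrFun hU a) b
      rw [Matrix.mul_apply, Matrix.one_apply] at this
      simpa [Matrix.conjTranspose_apply] using this
    simp only [h4]
    rw [Finset.sum_eq_single a]
    · rw [if_pos rfl, mul_one]
      have := h1 (x a)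
      push_cast at this
      exact this.symm
    · intro b _ hb
      rw [if_neg (Ne.symm hb), mul_zero]
    · intro h
      exact absurd (Finset.mem_univ a) h
  exact_mod_cast h2

theorem diag_fsq_sum (U : Matrix (Fin k) (Fin k) 𝕜) (hU : U * Uᴴ = 1)
    (C : Fin k → Matrix (Fin n) (Fin n) 𝕜) :
    ∑ i, fsq (diag_fam U C i) = ∑ a, fsq (C a) := by
  unfold fsq
  rw [Finset.sum_comm]
  conv_rhs => rw [Finset.sum_comm]
  refine Finset.sum_congr rfl fun p _ => ?_
  rw [Finset.sum_comm]
  conv_rhs => rw [Finset.sum_comm]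
  refine Finset.sum_congr rfl fun q _ => ?_
  rw [← diag_unit U hU (fun a => C a p q)]
  refine Finset.sum_congr rfl fun i _ => ?_
  congr 2
  unfold diag_fam
  rw [Matrix.sum_apply]
  rfl

theorem diag_iso (U : Matrix (Fin k) (Fin k) 𝕜) (C C' : Fin k → Matrix (Fin n) (Fin n) 𝕜)
    (h : ∀ a b, trace (C a * C' b) = 0) (i j : Fin k) :
    trace (diag_fam U C i * diag_fam U C' j) = 0 := by
  unfold diag_fam
  rw [Finset.sum_mul, Matrix.trace_sum]
  refine Finset.sum_eq_zero fun a _ => ?_
  rw [Finset.mul_sum, Matrix.trace_sum]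
  refine Finset.sum_eq_zero fun b _ => ?_
  rw [Matrix.smul_mul, Matrix.mul_smul, Matrix.trace_smul, Matrix.trace_smul, h, smul_zero,
    smul_zero]

end

theorem diag : S_DIAG := by
  intro 𝕜 _ n k B C
  set H := gram_herm C with hH
  set V : Matrix (Fin k) (Fin k) 𝕜 := (H.eigenvectorUnitary : Matrix (Fin k) (Fin k) 𝕜) with hV
  have hVV : V * Vᴴ = 1 := by
    have := (Matrix.mem_unitaryGroup_iff (A := V)).1 H.eigenvectorUnitary.2
    rwa [Matrix.star_eq_conjTranspose] at this
  have hdiag : Vᴴ * gram C * V = Matrix.diagonal (RCLike.ofReal ∘ H.eigenvalues) := by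
    have := H.conjStarAlgAut_star_eigenvectorUnitary
    rw [Unitary.conjStarAlgAut_star_apply] at this
    rw [← this]
    rfl
  let e : Fin (Fintype.card (Fin k)) ≃ Fin k := Fintype.equivOfCardEq (Fintype.card_fin _)
  refine ⟨fun j => diag_fam V C (e j), ?_, ?_, ?_, ?_⟩
  · intro a b hab
    rw [Matrix.trace_mul_comm, diag_trace, hdiag, Matrix.diagonal_apply_ne]
    intro h
    exact hab (e.injective h).symm
  · intro j
    rw [diag_fsq_eq, diag_trace, hdiag, Matrix.diagonal_apply_eq]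
    simp only [Function.comp, RCLike.ofReal_re]
    change H.eigenvalues₀ (e.symm (e j)) = _
    rw [Equiv.symm_apply_apply]
  · simp only [diag_comm]
    rw [Equiv.sum_comp e (fun i => fsq (diag_fam V (fun a => comm B (C a)) i))]
    exact diag_fsq_sum V hVV _
  · intro h a b
    simp only [diag_comm]
    exact diag_iso V C (fun a => comm B (C a)) h _ _

end Pool.Agent.Y266.LS
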