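import Pool.Agent.Y266.LS.EX2

/-!
# LS-EX1: the extremal example without isotropy (helper908)
-/

set_option autoImplicit false

open Matrix

namespace Pool.Agent.Y266.LS

/-- the label of a position -/
def ex1_lab (i j : ℕ) : ℕ :=
  if i = 1 ∧ j = 0 then 0 else if (i = 0 ∧ j = 0) ∨ (i = 1 ∧ j = 1) then 1 else
    if i = 1 then 2 * (j - 1) else 2 * (i - 1) + 1

theorem ex1_one (𝕜 : Type) [RCLike 𝕜] (n : ℕ) (hn : 2 ≤ n) (i0 i1 : Fin n) (hi0 : (i0 : ℕ) = 0)
    (hi1 : (i1 : ℕ) = 1) (a : ℕ) (ha : a < 2 * n - 2) (γ : ℝ) (hγ : 0 ≤ γ) :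
    ∃ M : Matrix (Fin n) (Fin n) 𝕜, trace M = 0 ∧ fsq M = γ ∧
      (∀ i j, M i j ≠ 0 → ex1_lab i j = a) ∧
      fsq (comm (Matrix.single i0 i1 (1 : 𝕜)) M) = (if a < 2 then γ else 0) + γ := by
  have h01 : i0 ≠ i1 := by
    intro h
    rw [h] at hi0
    omega
  have h10 : i1 ≠ i0 := h01.symm
  by_cases ha0 : a = 0
  · -- E10
    refine ⟨Matrix.single i1 i0 ((Real.sqrt γ : ℝ) : 𝕜), Matrix.trace_single_eq_of_ne _ _ _ h10,
      ?_, ?_, ?_⟩
    · rw [ex_fsq_single, ex_norm_sqrt hγ]
    · intro i j h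
      obtain ⟨h1, h2⟩ := ex_single_ne h
      rw [h1, h2, hi0, hi1, ha0]
      simp [ex1_lab]
    · have hc : comm (Matrix.single i0 i1 (1 : 𝕜)) (Matrix.single i1 i0 ((Real.sqrt γ : ℝ) : 𝕜)) =
          Matrix.single i0 i0 ((Real.sqrt γ : ℝ) : 𝕜) +
          -Matrix.single i1 i1 ((Real.sqrt γ : ℝ) : 𝕜) := by
        unfold comm
        rw [Matrix.single_mul_single_same, Matrix.single_mul_single_same, one_mul, mul_one,
          sub_eq_add_neg]
      rw [hc, if_pos (by omega), ex_fsq_add, ex_fsq_single, ex_fsq_neg, ex_fsq_single,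
        ex_norm_sqrt hγ]
      intro p q
      by_contra hcon
      push Not at hcon
      obtain ⟨h1, -⟩ := ex_single_ne hcon.1
      have h2 := hcon.2
      rw [Matrix.neg_apply, neg_ne_zero] at h2
      obtain ⟨h3, -⟩ := ex_single_ne h2
      exact h01 (h1.symm.trans h3)
  by_cases ha1 : a = 1
  · -- E00 - E11
    have hγ2 : 0 ≤ γ / 2 := by linarith
    set c : 𝕜 := ((Real.sqrt (γ / 2) : ℝ) : 𝕜) with hcdef
    have hcn : ‖c‖ ^ 2 = γ / 2 := ex_norm_sqrt hγ2
    refine ⟨Matrix.single i0 i0 c + -Matrix.single i1 i1 c, ?_, ?_, ?_, ?_⟩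
    · rw [Matrix.trace_add, Matrix.trace_neg, Matrix.trace_single_eq_same,
        Matrix.trace_single_eq_same, add_neg_cancel]
    · rw [ex_fsq_add, ex_fsq_neg, ex_fsq_single, ex_fsq_single, hcn]
      · ring
      · intro p q
        by_contra hcon
        push Not at hcon
        obtain ⟨h1, -⟩ := ex_single_ne hcon.1
        have h2 := hcon.2
        rw [Matrix.neg_apply, neg_ne_zero] at h2
        obtain ⟨h3, -⟩ := ex_single_ne h2
        exact h01 (h1.symm.trans h3)
    · intro i j h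
      have h' : Matrix.single i0 i0 c i j ≠ 0 ∨ Matrix.single i1 i1 c i j ≠ 0 := by
        by_contra hcon
        push Not at hcon
        apply h
        rw [Matrix.add_apply, Matrix.neg_apply, hcon.1, hcon.2, neg_zero, add_zero]
      rcases h' with h' | h'
      · obtain ⟨h1, h2⟩ := ex_single_ne h'
        rw [h1, h2, hi0, ha1]
        simp [ex1_lab]
      · obtain ⟨h1, h2⟩ := ex_single_ne h'
        rw [h1, h2, hi1, ha1]
        simp [ex1_lab]
    · have hc : comm (Matrix.single i0 i1 (1 : 𝕜)) (Matrix.single i0 i0 c + -Matrix.single i1 i1 c) =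
          -Matrix.single i0 i1 (2 * c) := by
        unfold comm
        rw [mul_add, mul_neg, add_mul, neg_mul, Matrix.single_mul_single_same,
          Matrix.single_mul_single_of_ne _ _ _ _ h10, Matrix.single_mul_single_same,
          Matrix.single_mul_single_of_ne _ _ _ _ h10, one_mul, mul_one, neg_zero, add_zero,
          zero_add, two_mul, Matrix.single_add]
        abel
      rw [hc, if_pos (by omega), ex_fsq_neg, ex_fsq_single, norm_mul, mul_pow, hcn]
      have : ‖(2 : 𝕜)‖ = 2 := by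
        rw [RCLike.norm_two]
      rw [this]
      ring
  have ha2 : 2 ≤ a := by omega
  rcases Nat.even_or_odd' a with ⟨m, hm | hm⟩
  · -- E_{1, m + 1}
    have hmn : m + 1 < n := by omega
    have hne1 : (⟨m + 1, hmn⟩ : Fin n) ≠ i1 := by
      intro h
      have := congrArg Fin.val h
      simp only at this
      omega
    have hne0 : (⟨m + 1, hmn⟩ : Fin n) ≠ i0 := by
      intro h
      have := congrArg Fin.val h
      simp only at this
      omega
    refine ⟨Matrix.single i1 ⟨m + 1, hmn⟩ ((Real.sqrt γ : ℝ) : 𝕜),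
      Matrix.trace_single_eq_of_ne _ _ _ hne1.symm, ?_, ?_, ?_⟩
    · rw [ex_fsq_single, ex_norm_sqrt hγ]
    · intro i j h
      obtain ⟨h1, h2⟩ := ex_single_ne h
      rw [h1, h2, hi1]
      unfold ex1_lab
      simp only
      rw [if_neg (by omega), if_neg (by omega), if_pos trivial]
      omega
    · have hc : comm (Matrix.single i0 i1 (1 : 𝕜))
          (Matrix.single i1 ⟨m + 1, hmn⟩ ((Real.sqrt γ : ℝ) : 𝕜)) =
          Matrix.single i0 ⟨m + 1, hmn⟩ ((Real.sqrt γ : ℝ) : 𝕜) := by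
        unfold comm
        rw [Matrix.single_mul_single_same, Matrix.single_mul_single_of_ne _ _ _ _ hne0, one_mul,
          sub_zero]
      rw [hc, if_neg (by omega), ex_fsq_single, ex_norm_sqrt hγ, zero_add]
  · -- E_{m + 1, 0}
    have hmn : m + 1 < n := by omega
    have hne1 : (⟨m + 1, hmn⟩ : Fin n) ≠ i1 := by
      intro h
      have := congrArg Fin.val h
      simp only at this
      omega
    have hne0 : (⟨m + 1, hmn⟩ : Fin n) ≠ i0 := by
      intro h
      have := congrArg Fin.val h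
      simp only at this
      omega
    refine ⟨Matrix.single ⟨m + 1, hmn⟩ i0 ((Real.sqrt γ : ℝ) : 𝕜),
      Matrix.trace_single_eq_of_ne _ _ _ hne0, ?_, ?_, ?_⟩
    · rw [ex_fsq_single, ex_norm_sqrt hγ]
    · intro i j h
      obtain ⟨h1, h2⟩ := ex_single_ne h
      rw [h1, h2, hi0]
      unfold ex1_lab
      simp only
      rw [if_neg (by omega), if_neg (by omega), if_neg (by omega)]
      omega
    · have hc : comm (Matrix.single i0 i1 (1 : 𝕜))
          (Matrix.single ⟨m + 1, hmn⟩ i0 ((Real.sqrt γ : ℝ) : 𝕜)) =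
          -Matrix.single ⟨m + 1, hmn⟩ i1 ((Real.sqrt γ : ℝ) : 𝕜) := by
        unfold comm
        rw [Matrix.single_mul_single_same, Matrix.single_mul_single_of_ne _ _ _ _ hne1.symm,
          mul_one, zero_sub]
      rw [hc, if_neg (by omega), ex_fsq_neg, ex_fsq_single, ex_norm_sqrt hγ, zero_add]

theorem ex1 : S_EX1 := by
  intro 𝕜 _ n hn k hk γ hγ
  have h0n : 0 < n := by omega
  have h1n : 1 < n := by omega
  choose C hC1 hC2 hC3 hC4 using fun a : Fin k =>
    ex1_one 𝕜 n hn ⟨0, h0n⟩ ⟨1, h1n⟩ rfl rfl a (by have := a.2; omega) (γ a) (hγ a)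
  refine ⟨Matrix.single ⟨0, h0n⟩ ⟨1, h1n⟩ 1, C, ?_, ?_, hC1, hC2, ?_, ?_⟩
  · rw [ex_fsq_single]; simp
  · apply Matrix.trace_single_eq_of_ne
    intro h
    have := congrArg Fin.val h
    simp at this
  · intro a b hab
    apply ex_orth
    intro p q
    by_contra hc
    push Not at hc
    have h1 := hC3 a p q hc.1
    have h2 := hC3 b p q hc.2
    exact hab (Fin.ext (h1.symm.trans h2))
  · rw [← Finset.sum_add_distrib]
    exact Finset.sum_congr rfl fun a _ => hC4 a

end Pool.Agent.Y266.LS
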