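import Pool.Agent.Y266.LS.Stm

/-!
# LS-EX2: the extremal example for isotropic families (helper908)
-/

set_option autoImplicit false

open Matrix

namespace Pool.Agent.Y266.LS

section
variable {𝕜 : Type} [RCLike 𝕜] {n : ℕ}

theorem ex_fsq_single (i j : Fin n) (c : 𝕜) : fsq (Matrix.single i j c) = ‖c‖ ^ 2 := by
  unfold fsq
  rw [Finset.sum_eq_single i, Finset.sum_eq_single j]
  · rw [Matrix.single_apply_same]
  · intro b _ hb
    rw [Matrix.single_apply_of_ne]
    · simp
    · rintro ⟨-, h⟩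
      exact hb h.symm
  · intro h
    exact absurd (Finset.mem_univ _) h
  · intro b _ hb
    refine Finset.sum_eq_zero fun q _ => ?_
    rw [Matrix.single_apply_of_ne]
    · simp
    · rintro ⟨h, -⟩
      exact hb h.symm
  · intro h
    exact absurd (Finset.mem_univ _) h

theorem ex_fsq_add (A A' : Matrix (Fin n) (Fin n) 𝕜) (h : ∀ i j, A i j = 0 ∨ A' i j = 0) :
    fsq (A + A') = fsq A + fsq A' := by
  unfold fsq
  rw [← Finset.sum_add_distrib]
  refine Finset.sum_congr rfl fun i _ => ?_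
  rw [← Finset.sum_add_distrib]
  refine Finset.sum_congr rfl fun j _ => ?_
  rw [Matrix.add_apply]
  rcases h i j with h | h <;> simp [h]

theorem ex_fsq_neg (A : Matrix (Fin n) (Fin n) 𝕜) : fsq (-A) = fsq A := by
  unfold fsq
  simp

theorem ex_orth (A A' : Matrix (Fin n) (Fin n) 𝕜) (h : ∀ i j, A i j = 0 ∨ A' i j = 0) :
    trace (A * A'ᴴ) = 0 := by
  rw [Matrix.trace]
  refine Finset.sum_eq_zero fun i _ => ?_
  rw [Matrix.diag_apply, Matrix.mul_apply]
  refine Finset.sum_eq_zero fun j _ => ?_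
  rw [Matrix.conjTranspose_apply]
  rcases h i j with h | h <;> simp [h]

theorem ex_trmul (A A' : Matrix (Fin n) (Fin n) 𝕜) (h : ∀ i j, A i j = 0 ∨ A' j i = 0) :
    trace (A * A') = 0 := by
  rw [Matrix.trace]
  refine Finset.sum_eq_zero fun i _ => ?_
  rw [Matrix.diag_apply, Matrix.mul_apply]
  refine Finset.sum_eq_zero fun j _ => ?_
  rcases h i j with h | h <;> simp [h]

theorem ex_single_ne {i j p q : Fin n} {c : 𝕜} (h : Matrix.single i j c p q ≠ 0) :
    p = i ∧ q = j := by
  by_contra hc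
  apply h
  apply Matrix.single_apply_of_ne
  rintro ⟨h1, h2⟩
  exact hc ⟨h1.symm, h2.symm⟩

theorem ex_norm_sqrt {g : ℝ} (hg : 0 ≤ g) : ‖((Real.sqrt g : ℝ) : 𝕜)‖ ^ 2 = g := by
  rw [RCLike.norm_ofReal, sq_abs, Real.sq_sqrt hg]

end

theorem ex2 : S_EX2 := by
  intro 𝕜 _ n hn k hk γ hγ
  have h0n : 0 < n := by omega
  have h1n : 1 < n := by omega
  let i0 : Fin n := ⟨0, h0n⟩
  let i1 : Fin n := ⟨1, h1n⟩
  have h01 : i0 ≠ i1 := by
    intro h
    have := congrArg Fin.val h
    simp [i0, i1] at this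
  have h10 : i1 ≠ i0 := h01.symm
  have hs : ∀ a : Fin k, (if (a : ℕ) = 0 then 0 else (a : ℕ) + 1) < n := by
    intro a
    have := a.2
    split_ifs <;> omega
  let s : Fin k → Fin n := fun a => ⟨_, hs a⟩
  have hsv : ∀ a : Fin k, (s a : ℕ) = if (a : ℕ) = 0 then 0 else (a : ℕ) + 1 := fun a => rfl
  have hsinj : ∀ a b, s a = s b → a = b := by
    intro a b hab
    have h1 := congrArg Fin.val hab
    rw [hsv, hsv] at h1
    apply Fin.ext
    split_ifs at h1 <;> omega
  have hs1 : ∀ a, s a ≠ i1 := by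
    intro a h
    have h1 := congrArg Fin.val h
    rw [hsv] at h1
    simp only [i1] at h1
    split_ifs at h1 <;> omega
  have hs0 : ∀ a : Fin k, s a = i0 ↔ (a : ℕ) = 0 := by
    intro a
    constructor
    · intro h
      have h1 := congrArg Fin.val h
      rw [hsv] at h1
      simp only [i0] at h1
      split_ifs at h1 <;> omega
    · intro h
      apply Fin.ext
      rw [hsv, if_pos h]
  let g : Fin k → 𝕜 := fun a => ((Real.sqrt (γ a) : ℝ) : 𝕜)
  have hg : ∀ a, ‖g a‖ ^ 2 = γ a := fun a => ex_norm_sqrt (hγ a)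
  have hcomm : ∀ a, comm (Matrix.single i0 i1 (1 : 𝕜)) (Matrix.single i1 (s a) (g a)) =
      Matrix.single i0 (s a) (g a) + (if (a : ℕ) = 0 then -Matrix.single i1 i1 (g a) else 0) := by
    intro a
    unfold comm
    rw [Matrix.single_mul_single_same, one_mul, sub_eq_add_neg]
    congr 1
    split_ifs with ha
    · rw [(hs0 a).2 ha, Matrix.single_mul_single_same, mul_one]
    · rw [Matrix.single_mul_single_of_ne _ _ _ _ (fun h => ha ((hs0 a).1 h)), neg_zero]
  refine ⟨Matrix.single i0 i1 1, fun a => Matrix.single i1 (s a) (g a), ?_, ?_, ?_, ?_, ?_, ?_, ?_⟩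
  · rw [ex_fsq_single]; simp
  · exact Matrix.trace_single_eq_of_ne i0 i1 1 h01
  · intro a
    exact Matrix.trace_single_eq_of_ne _ _ _ (hs1 a).symm
  · intro a
    rw [ex_fsq_single, hg]
  · intro a b hab
    apply ex_orth
    intro p q
    by_contra hc
    push Not at hc
    obtain ⟨-, h1⟩ := ex_single_ne hc.1
    obtain ⟨-, h2⟩ := ex_single_ne hc.2
    exact hab (hsinj a b (h1.symm.trans h2))
  · intro a b
    apply ex_trmul
    intro p q
    by_contra hc
    push Not at hc
    obtain ⟨h1, h2⟩ := ex_single_ne hc.1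
    have h3 := hc.2
    rw [hcomm, h1, h2, Matrix.add_apply] at h3
    apply h3
    have h4 : Matrix.single i0 (s b) (g b) (s a) i1 = 0 := by
      apply Matrix.single_apply_of_ne
      rintro ⟨-, h⟩
      exact hs1 b h
    rw [h4, zero_add]
    split_ifs with hb
    · rw [Matrix.neg_apply, Matrix.single_apply_of_ne, neg_zero]
      rintro ⟨h, -⟩
      exact hs1 a h.symm
    · rfl
  · rw [← Finset.sum_add_distrib]
    refine Finset.sum_congr rfl fun a _ => ?_
    rw [hcomm]
    by_cases ha : (a : ℕ) = 0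
    · rw [if_pos ha, if_pos (by omega), ex_fsq_add, ex_fsq_single, ex_fsq_neg, ex_fsq_single, hg]
      intro p q
      by_contra hc
      push Not at hc
      obtain ⟨h1, -⟩ := ex_single_ne hc.1
      have h2 := hc.2
      rw [Matrix.neg_apply, neg_ne_zero] at h2
      obtain ⟨h3, -⟩ := ex_single_ne h2
      exact h01 (h1.symm.trans h3)
    · rw [if_neg ha, if_neg (by omega), add_zero, ex_fsq_single, hg, zero_add]

end Pool.Agent.Y266.LS
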