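import Pool.Agent.Y266.LS.P

/-! Summation by parts and orthogonal families. -/

set_option autoImplicit false

open Matrix Finset Pool.Agent.W781.LW Pool.Agent.W181.LW

namespace Pool.Agent.Y266.LS

theorem abel : S_ABEL := by
  intro m g q w hg hmono hle
  have key : ∀ r, r < m → g r * (∑ j ∈ Finset.range (r + 1), (w j - q j)) ≤
      ∑ j ∈ Finset.range (r + 1), g j * (w j - q j) := by
    intro r
    induction r with
    | zero => intro _; simp
    | succ r ih =>
      intro hr
      have h1 := ih (by omega)
      rw [Finset.sum_range_succ, Finset.sum_range_succ (fun j => g j * (w j - q j))]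
      have h2 : g (r + 1) ≤ g r := hmono r (r + 1) (by omega) hr
      have h3 : 0 ≤ ∑ j ∈ Finset.range (r + 1), (w j - q j) := by
        rw [Finset.sum_sub_distrib]
        have := hle (r + 1) (by omega)
        linarith
      nlinarith
  rcases Nat.eq_zero_or_pos m with h0 | h1
  · subst h0; simp
  · obtain ⟨r, rfl⟩ : ∃ r, m = r + 1 := ⟨m - 1, by omega⟩
    have h2 := key r (by omega)
    have h3 : 0 ≤ ∑ j ∈ Finset.range (r + 1), (w j - q j) := by
      rw [Finset.sum_sub_distrib]
      have := hle (r + 1) le_rfl
      linarith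
    have h4 : 0 ≤ ∑ j ∈ Finset.range (r + 1), g j * (w j - q j) :=
      le_trans (mul_nonneg (hg r) h3) h2
    have h5 : ∑ j ∈ Finset.range (r + 1), g j * (w j - q j) =
        ∑ j ∈ Finset.range (r + 1), g j * w j - ∑ j ∈ Finset.range (r + 1), g j * q j := by
      rw [← Finset.sum_sub_distrib]
      exact Finset.sum_congr rfl fun j _ => by ring
    linarith

theorem sort : S_SORT := by
  intro n w iso X hw hbase m C hor hanti hiso
  classical
  set t : Fin m → ℝ := fun a => fro (C a) with ht
  have ht0 : ∀ a, 0 ≤ t a := fun a => fro_nonneg _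
  set Y : Fin m → Matrix (Fin n) (Fin n) ℂ := fun a => (((Real.sqrt (t a))⁻¹ : ℝ) : ℂ) • C a with hY
  have hnorm : ∀ a, ‖(((Real.sqrt (t a))⁻¹ : ℝ) : ℂ)‖ ^ 2 = (t a)⁻¹ := by
    intro a
    rw [Complex.norm_real, Real.norm_eq_abs, sq_abs, inv_pow, Real.sq_sqrt (ht0 a)]
  have hfc : ∀ a, fro (com X (C a)) = t a * fro (com X (Y a)) := by
    intro a
    by_cases h0 : t a = 0
    · have hC : C a = 0 := eq_zero_of_fro _ h0
      rw [h0, zero_mul, hC]
      simp [com, fro]
    · rw [hY]
      simp only
      rw [com_smul, fro_smul, hnorm, ← mul_assoc, mul_inv_cancel₀ h0, one_mul]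
  set g : ℕ → ℝ := fun j => if h : j < m then t ⟨j, h⟩ else 0 with hg
  set q : ℕ → ℝ := fun j => if h : j < m then fro (com X (Y ⟨j, h⟩)) else 0 with hq
  have hg0 : ∀ j, 0 ≤ g j := by
    intro j
    simp only [hg]
    split_ifs
    · exact ht0 _
    · exact le_rfl
  have hgm : ∀ i j, i ≤ j → j < m → g j ≤ g i := by
    intro i j hij hj
    simp only [hg]
    rw [dif_pos hj, dif_pos (by omega)]
    exact hanti (show (⟨i, by omega⟩ : Fin m) ≤ ⟨j, hj⟩ from hij)
  -- partial sums
  have hpart : ∀ r, r ≤ m → ∑ j ∈ Finset.range r, q j ≤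
      ∑ j ∈ Finset.range r, w j * fro X := by
    -- first for `r` such that all the norms are positive
    have h1 : ∀ r, r ≤ m → (∀ j, j < r → g j ≠ 0) → ∑ j ∈ Finset.range r, q j ≤
        ∑ j ∈ Finset.range r, w j * fro X := by
      intro r hr hne
      rw [← Finset.sum_mul]
      have h2 := hbase r (fun a => Y ⟨a, by omega⟩) ?_ ?_
      · refine le_trans (le_of_eq ?_) h2
        rw [← Fin.sum_univ_eq_sum_range (fun j => q j)]
        refine Finset.sum_congr rfl fun a _ => ?_
        simp only [hq]
        rw [dif_pos (by omega)]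
      · intro a b
        have hYY : trace (Y ⟨a, by omega⟩ * (Y ⟨b, by omega⟩)ᴴ) =
            ((((Real.sqrt (t ⟨a, by omega⟩))⁻¹ : ℝ) : ℂ) *
              (((Real.sqrt (t ⟨b, by omega⟩))⁻¹ : ℝ) : ℂ)) *
              trace (C ⟨a, by omega⟩ * (C ⟨b, by omega⟩)ᴴ) := by
          simp only [hY]
          rw [conjTranspose_smul, Matrix.smul_mul, Matrix.mul_smul, trace_smul, trace_smul,
            smul_eq_mul, smul_eq_mul, mul_assoc]
          simp
        rw [hYY]
        by_cases hab : a = b
        · subst hab
          rw [if_pos rfl, trace_self]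
          have hne' : t ⟨a, by omega⟩ ≠ 0 := by
            have := hne a a.2
            simp only [hg] at this
            rwa [dif_pos (by omega)] at this
          have hsq : (Real.sqrt (t ⟨a, by omega⟩))⁻¹ * (Real.sqrt (t ⟨a, by omega⟩))⁻¹ *
              fro (C ⟨a, by omega⟩) = 1 := by
            have : fro (C ⟨a, by omega⟩) = t ⟨a, by omega⟩ := rfl
            rw [this, ← mul_inv, Real.mul_self_sqrt (ht0 _), inv_mul_cancel₀ hne']
          exact_mod_cast hsq
        · rw [if_neg hab, hor _ _ ?_, mul_zero]
          intro h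
          apply hab
          have := congrArg Fin.val h
          exact Fin.ext this
      · intro hi a b
        simp only [hY]
        rw [com_smul, Matrix.smul_mul, Matrix.mul_smul, trace_smul, trace_smul, hiso hi]
        simp
    intro r
    induction r with
    | zero => intro _; simp
    | succ r ih =>
      intro hr
      by_cases h0 : g r = 0
      · rw [Finset.sum_range_succ, Finset.sum_range_succ (fun j => w j * fro X)]
        have h2 := ih (by omega)
        have h3 : q r = 0 := by
          simp only [hq]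
          rw [dif_pos (by omega)]
          simp only [hg] at h0
          rw [dif_pos (by omega)] at h0
          have hC : C ⟨r, by omega⟩ = 0 := eq_zero_of_fro _ h0
          have : Y ⟨r, by omega⟩ = 0 := by
            simp only [hY]
            rw [hC, smul_zero]
          rw [this]
          simp [com, fro]
        rw [h3]
        have := mul_nonneg (hw r) (fro_nonneg X)
        linarith
      · refine h1 (r + 1) hr ?_
        intro j hj hj0
        apply h0
        have h4 := hgm j r (by omega) (by omega)
        exact le_antisymm (h4.trans hj0.le) (hg0 r)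
  have h := abel m g q (fun j => w j * fro X) hg0 hgm hpart
  rw [← Fin.sum_univ_eq_sum_range (fun j => g j * q j),
    ← Fin.sum_univ_eq_sum_range (fun j => g j * (w j * fro X))] at h
  rw [Finset.sum_mul]
  have e1 : ∀ a : Fin m, g a * q a = fro (com X (C a)) := by
    intro a
    simp only [hg, hq]
    rw [dif_pos a.2, dif_pos a.2, hfc]
  have e2 : ∀ a : Fin m, g a * (w a * fro X) = w a * fro (C a) * fro X := by
    intro a
    simp only [hg]
    rw [dif_pos a.2]
    simp only [ht]
    ring
  simp only [e1, e2] at h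
  exact h

theorem o1 (n m : ℕ) (X : Matrix (Fin n) (Fin n) ℂ) (C : Fin m → Matrix (Fin n) (Fin n) ℂ)
    (hor : ∀ a b, a ≠ b → trace (C a * (C b)ᴴ) = 0) (hanti : Antitone (fun a => fro (C a))) :
    ∑ a, fro (com X (C a)) ≤ (∑ a : Fin m, w1 n a * fro (C a)) * fro X :=
  sort n (w1 n) false X (fun j => by unfold w1; positivity)
    (fun m Y hY _ => p1 n m X Y hY) m C hor hanti (fun h => by simp at h)

theorem o2 (n m : ℕ) (X : Matrix (Fin n) (Fin n) ℂ) (C : Fin m → Matrix (Fin n) (Fin n) ℂ)
    (hor : ∀ a b, a ≠ b → trace (C a * (C b)ᴴ) = 0) (hanti : Antitone (fun a => fro (C a)))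
    (hiso : ∀ a b, trace (C a * com X (C b)) = 0) :
    ∑ a, fro (com X (C a)) ≤ (∑ a : Fin m, w2 n a * fro (C a)) * fro X :=
  sort n (w2 n) true X (fun j => by unfold w2; positivity)
    (fun m Y hY h => p2 n m X Y hY (h rfl)) m C hor hanti (fun _ => hiso)

end Pool.Agent.Y266.LS
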