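import Pool.Agent.W591.LW.Emb
import Pool.Agent.Y266.LS.Sort

/-! The inequalities for all families, from the diagonalisation of the Gram matrix. -/

set_option autoImplicit false

open Matrix Finset Pool.Agent.W781.LW Pool.Agent.W181.LW Pool.Agent.W591.LW

namespace Pool.Agent.Y266.LS

section field
variable {𝕜 : Type} [RCLike 𝕜] {n : ℕ}

theorem fro_phi (A : Matrix (Fin n) (Fin n) 𝕜) : fro (A.map phi) = fsq A := fro_map A

theorem comm_phi (A B : Matrix (Fin n) (Fin n) 𝕜) :
    com (A.map phi) (B.map phi) = (comm A B).map phi := com_map A B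

theorem comm_tf (A B : Matrix (Fin n) (Fin n) 𝕜) : comm (tf A) (tf B) = comm A B := by
  unfold comm tf
  simp only [Matrix.sub_mul, Matrix.mul_sub, Matrix.smul_mul, Matrix.mul_smul, Matrix.one_mul,
    Matrix.mul_one]
  simp only [smul_sub, smul_smul]
  rw [mul_comm (trace B / (n : 𝕜))]
  abel

theorem trace_comm (A B : Matrix (Fin n) (Fin n) 𝕜) : trace (comm A B) = 0 := by
  unfold comm
  rw [Matrix.trace_sub, Matrix.trace_mul_comm, sub_self]

theorem trace_tf_comm (A B C : Matrix (Fin n) (Fin n) 𝕜) :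
    trace (tf A * comm (tf B) (tf C)) = trace (A * comm B C) := by
  rw [comm_tf]
  unfold tf
  rw [Matrix.sub_mul, Matrix.smul_mul, Matrix.one_mul, Matrix.trace_sub, Matrix.trace_smul,
    trace_comm, smul_zero, sub_zero]

theorem fsq_nonneg (A : Matrix (Fin n) (Fin n) 𝕜) : 0 ≤ fsq A := by
  unfold fsq; positivity

theorem o1K (m : ℕ) (X : Matrix (Fin n) (Fin n) 𝕜) (C : Fin m → Matrix (Fin n) (Fin n) 𝕜)
    (hor : ∀ a b, a ≠ b → trace (C a * (C b)ᴴ) = 0) (hanti : Antitone (fun a => fsq (C a))) :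
    ∑ a, fsq (comm X (C a)) ≤ (∑ a : Fin m, w1 n a * fsq (C a)) * fsq X := by
  have h := o1 n m (X.map phi) (fun a => (C a).map phi)
    (fun a b hab => by rw [trace_star, hor a b hab, map_zero])
    (by simpa only [fro_phi] using hanti)
  simpa only [comm_phi, fro_phi] using h

theorem o2K (m : ℕ) (X : Matrix (Fin n) (Fin n) 𝕜) (C : Fin m → Matrix (Fin n) (Fin n) 𝕜)
    (hor : ∀ a b, a ≠ b → trace (C a * (C b)ᴴ) = 0) (hanti : Antitone (fun a => fsq (C a)))
    (hiso : ∀ a b, trace (C a * comm X (C b)) = 0) :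
    ∑ a, fsq (comm X (C a)) ≤ (∑ a : Fin m, w2 n a * fsq (C a)) * fsq X := by
  have h := o2 n m (X.map phi) (fun a => (C a).map phi)
    (fun a b hab => by rw [trace_star, hor a b hab, map_zero])
    (by simpa only [fro_phi] using hanti)
    (fun a b => by rw [comm_phi, ← map_mul', Pool.Agent.W591.LW.trace_map, hiso, map_zero])
  simpa only [comm_phi, fro_phi] using h

end field

theorem sum_top {𝕜 : Type} [RCLike 𝕜] {n k : ℕ} (C : Fin k → Matrix (Fin n) (Fin n) 𝕜)
    (r s : ℕ) :
    ∑ j : Fin (Fintype.card (Fin k)), ((if (j : ℕ) < r then (1 : ℝ) else 0) +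
      (if (j : ℕ) < s then (1 : ℝ) else 0)) * (gram_herm C).eigenvalues₀ j = top C r + top C s := by
  unfold top
  rw [← Finset.sum_add_distrib]
  refine Finset.sum_congr rfl fun j _ => ?_
  split_ifs <;> ring

theorem gram_of (hD : S_DIAG) : S_GRAM := by
  intro 𝕜 _ n k B C
  obtain ⟨D, h1, h2, h3, h4⟩ := hD 𝕜 n k (tf B) (fun a => tf (C a))
  have hanti : Antitone (fun j => fsq (D j)) := by
    simp only [h2]
    exact (gram_herm _).eigenvalues₀_antitone
  simp only [comm_tf] at h3
  constructor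
  · have h := o1K _ (tf B) D h1 hanti
    rw [h3] at h
    simp only [h2, w1] at h
    rw [sum_top (fun a => tf (C a))] at h
    exact h
  · intro hiso
    have h := o2K _ (tf B) D h1 hanti (h4 (fun a b => by rw [trace_tf_comm, hiso]))
    rw [h3] at h
    simp only [h2, w2] at h
    rw [sum_top (fun a => tf (C a))] at h
    exact h

end Pool.Agent.Y266.LS
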