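import Pool.Agent.W781.LW.Stm

/-!
# The sharp form of the Lu-Wenzel inequality: definitions and statements of the parts
-/

set_option autoImplicit false

open Matrix

namespace Pool.Agent.Y266.LS

open Pool.Agent.W781.LW (fro com)

/-- The weights `2, 2, 1, …, 1, 0, …` (the last `1` at the place `2n - 3`; places start at `0`). -/
noncomputable def w1 (n j : ℕ) : ℝ := (if j < 2 then 1 else 0) + (if j < 2 * n - 2 then 1 else 0)

/-- The weights `2, 1, …, 1, 0, …` (the last `1` at the place `n - 2`). -/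
noncomputable def w2 (n j : ℕ) : ℝ := (if j < 1 then 1 else 0) + (if j < n - 1 then 1 else 0)

/-- Orthonormal families. -/
def S_P1 : Prop :=
  ∀ (n m : ℕ) (X : Matrix (Fin n) (Fin n) ℂ) (Y : Fin m → Matrix (Fin n) (Fin n) ℂ),
    (∀ a b, trace (Y a * (Y b)ᴴ) = if a = b then 1 else 0) →
    ∑ a, fro (com X (Y a)) ≤ (∑ j ∈ Finset.range m, w1 n j) * fro X

/-- Isotropic families from orthonormal families: half of the bound. -/
def S_HALF : Prop :=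
  ∀ (n : ℕ) (X : Matrix (Fin n) (Fin n) ℂ) (R : ℝ),
    (∀ (m : ℕ) (Z : Fin m → Matrix (Fin n) (Fin n) ℂ),
      (∀ a b, trace (Z a * (Z b)ᴴ) = if a = b then 1 else 0) → ∑ a, fro (com X (Z a)) ≤ R) →
    ∀ (m : ℕ) (Y : Fin m → Matrix (Fin n) (Fin n) ℂ),
      (∀ a b, trace (Y a * (Y b)ᴴ) = if a = b then 1 else 0) →
      (∀ a b, trace (Y a * com X (Y b)) = 0) → ∑ a, fro (com X (Y a)) ≤ R / 2

/-- Isotropic orthonormal families. -/
def S_P2 : Prop :=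
  ∀ (n m : ℕ) (X : Matrix (Fin n) (Fin n) ℂ) (Y : Fin m → Matrix (Fin n) (Fin n) ℂ),
    (∀ a b, trace (Y a * (Y b)ᴴ) = if a = b then 1 else 0) →
    (∀ a b, trace (Y a * com X (Y b)) = 0) →
    ∑ a, fro (com X (Y a)) ≤ (∑ j ∈ Finset.range m, w2 n j) * fro X

/-- Summation by parts. -/
def S_ABEL : Prop :=
  ∀ (m : ℕ) (g q w : ℕ → ℝ), (∀ j, 0 ≤ g j) → (∀ i j, i ≤ j → j < m → g j ≤ g i) →
    (∀ r, r ≤ m → ∑ j ∈ Finset.range r, q j ≤ ∑ j ∈ Finset.range r, w j) →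
    ∑ j ∈ Finset.range m, g j * q j ≤ ∑ j ∈ Finset.range m, g j * w j

/-- From orthonormal families (partial sums of the weights `w`) to orthogonal families with
decreasing norms (for isotropic families if `iso = true`). -/
def S_SORT : Prop :=
  ∀ (n : ℕ) (w : ℕ → ℝ) (iso : Bool) (X : Matrix (Fin n) (Fin n) ℂ), (∀ j, 0 ≤ w j) →
    (∀ (m : ℕ) (Y : Fin m → Matrix (Fin n) (Fin n) ℂ),
      (∀ a b, trace (Y a * (Y b)ᴴ) = if a = b then 1 else 0) →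
      (iso = true → ∀ a b, trace (Y a * com X (Y b)) = 0) →
      ∑ a, fro (com X (Y a)) ≤ (∑ j ∈ Finset.range m, w j) * fro X) →
    ∀ (m : ℕ) (C : Fin m → Matrix (Fin n) (Fin n) ℂ),
      (∀ a b, a ≠ b → trace (C a * (C b)ᴴ) = 0) → Antitone (fun a => fro (C a)) →
      (iso = true → ∀ a b, trace (C a * com X (C b)) = 0) →
      ∑ a, fro (com X (C a)) ≤ (∑ a : Fin m, w (a : ℕ) * fro (C a)) * fro X

section field
variable {𝕜 : Type} [RCLike 𝕜] {n : ℕ}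

/-- The squared Frobenius norm `‖A‖² = tr (A A*) = ∑ |a_ij|²`. -/
noncomputable def fsq (A : Matrix (Fin n) (Fin n) 𝕜) : ℝ := ∑ i, ∑ j, ‖A i j‖ ^ 2

/-- The commutator `[A, B] = A B - B A`. -/
noncomputable def comm (A B : Matrix (Fin n) (Fin n) 𝕜) : Matrix (Fin n) (Fin n) 𝕜 :=
  A * B - B * A

/-- The trace-free part `A° = A - (tr A / n) I`. -/
noncomputable def tf (A : Matrix (Fin n) (Fin n) 𝕜) : Matrix (Fin n) (Fin n) 𝕜 :=
  A - (trace A / (n : 𝕜)) • (1 : Matrix (Fin n) (Fin n) 𝕜)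

/-- The Gram matrix `(tr (C_a* C_b))` of a family of matrices. -/
noncomputable def gram {k : ℕ} (C : Fin k → Matrix (Fin n) (Fin n) 𝕜) :
    Matrix (Fin k) (Fin k) 𝕜 := Matrix.of fun a b => trace ((C a)ᴴ * C b)

theorem gram_herm {k : ℕ} (C : Fin k → Matrix (Fin n) (Fin n) 𝕜) : (gram C).IsHermitian := by
  ext a b
  simp only [gram, Matrix.conjTranspose_apply, Matrix.of_apply]
  rw [← Matrix.trace_conjTranspose, Matrix.conjTranspose_mul, Matrix.conjTranspose_conjTranspose]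

/-- The sum of the `r` largest eigenvalues of the Gram matrix. -/
noncomputable def top {k : ℕ} (C : Fin k → Matrix (Fin n) (Fin n) 𝕜) (r : ℕ) : ℝ :=
  ∑ j : Fin (Fintype.card (Fin k)), if (j : ℕ) < r then (gram_herm C).eigenvalues₀ j else 0

end field

/-- Diagonalisation of the Gram matrix: a unitary change of the family. -/
def S_DIAG : Prop :=
  ∀ (𝕜 : Type) [RCLike 𝕜] (n k : ℕ) (B : Matrix (Fin n) (Fin n) 𝕜)
    (C : Fin k → Matrix (Fin n) (Fin n) 𝕜),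
    ∃ D : Fin (Fintype.card (Fin k)) → Matrix (Fin n) (Fin n) 𝕜,
      (∀ a b, a ≠ b → trace (D a * (D b)ᴴ) = 0) ∧
      (∀ j, fsq (D j) = (gram_herm C).eigenvalues₀ j) ∧
      (∑ j, fsq (comm B (D j)) = ∑ a, fsq (comm B (C a))) ∧
      ((∀ a b, trace (C a * comm B (C b)) = 0) → ∀ a b, trace (D a * comm B (D b)) = 0)

/-- The inequalities for all families. -/
def S_GRAM : Prop :=
  ∀ (𝕜 : Type) [RCLike 𝕜] (n k : ℕ) (B : Matrix (Fin n) (Fin n) 𝕜)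
    (C : Fin k → Matrix (Fin n) (Fin n) 𝕜),
    (∑ a, fsq (comm B (C a)) ≤
      (top (fun a => tf (C a)) 2 + top (fun a => tf (C a)) (2 * n - 2)) * fsq (tf B)) ∧
    ((∀ a b, trace (C a * comm B (C b)) = 0) → ∑ a, fsq (comm B (C a)) ≤
      (top (fun a => tf (C a)) 1 + top (fun a => tf (C a)) (n - 1)) * fsq (tf B))

/-- Sharpness for isotropic families. -/
def S_EX2 : Prop :=
  ∀ (𝕜 : Type) [RCLike 𝕜] (n : ℕ), 2 ≤ n → ∀ k : ℕ, k ≤ n - 1 → ∀ γ : Fin k → ℝ, (∀ a, 0 ≤ γ a) →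
    ∃ (B : Matrix (Fin n) (Fin n) 𝕜) (C : Fin k → Matrix (Fin n) (Fin n) 𝕜),
      fsq B = 1 ∧ trace B = 0 ∧ (∀ a, trace (C a) = 0) ∧ (∀ a, fsq (C a) = γ a) ∧
      (∀ a b, a ≠ b → trace (C a * (C b)ᴴ) = 0) ∧ (∀ a b, trace (C a * comm B (C b)) = 0) ∧
      ∑ a, fsq (comm B (C a)) = (∑ a : Fin k, if (a : ℕ) < 1 then γ a else 0) + ∑ a, γ a

/-- Sharpness for all families. -/
def S_EX1 : Prop :=
  ∀ (𝕜 : Type) [RCLike 𝕜] (n : ℕ), 2 ≤ n → ∀ k : ℕ, k ≤ 2 * n - 2 → ∀ γ : Fin k → ℝ,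
    (∀ a, 0 ≤ γ a) →
    ∃ (B : Matrix (Fin n) (Fin n) 𝕜) (C : Fin k → Matrix (Fin n) (Fin n) 𝕜),
      fsq B = 1 ∧ trace B = 0 ∧ (∀ a, trace (C a) = 0) ∧ (∀ a, fsq (C a) = γ a) ∧
      (∀ a b, a ≠ b → trace (C a * (C b)ᴴ) = 0) ∧
      ∑ a, fsq (comm B (C a)) = (∑ a : Fin k, if (a : ℕ) < 2 then γ a else 0) + ∑ a, γ a

end Pool.Agent.Y266.LS
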