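import Pool.Agent.W181.LW.Iso
import Pool.Agent.Y266.LS.Stm

/-! The isotropic version of the commutator inequality: half of the bound for orthonormal families
(after `Pool.Agent.W181.LW.Iso`). -/

set_option autoImplicit false

open Matrix Finset Pool.Agent.W781.LW Pool.Agent.W181.LW
open scoped InnerProductSpace

namespace Pool.Agent.Y266.LS

theorem half : S_HALF := by
  intro n X R hR m Y hon his
  classical
  set E := EuclideanSpace ℂ (Fin n × Fin n)
  have hY : Orthonormal ℂ (fun a => vc (Y a)) := by
    rw [orthonormal_iff_ite]
    intro a b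
    rw [inner_vc, hon b a]
    by_cases h : a = b
    · subst h; simp
    · rw [if_neg h, if_neg (fun h' => h h'.symm)]
  set w : Fin m → E := fun a => vc ((com X (Y a))ᴴ) with hw
  have hperp : ∀ a b, ⟪w b, vc (Y a)⟫_ℂ = 0 := by
    intro a b
    rw [hw]
    simp only
    rw [inner_vc, conjTranspose_conjTranspose, his a b]
  set S : Submodule ℂ E := Submodule.span ℂ (Set.range w) with hS
  have hSY : ∀ a, ∀ v ∈ S, ⟪v, vc (Y a)⟫_ℂ = 0 := by
    intro a v hv
    refine Submodule.span_induction (p := fun v _ => ⟪v, vc (Y a)⟫_ℂ = 0) ?_ ?_ ?_ ?_ hv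
    · rintro _ ⟨b, rfl⟩
      exact hperp a b
    · simp
    · intro x y _ _ hx hy
      rw [inner_add_left, hx, hy, add_zero]
    · intro c x _ hx
      rw [inner_smul_left, hx, mul_zero]
  set k := Module.finrank ℂ S with hk
  have hkm : k ≤ m := by
    have := finrank_range_le_card (R := ℂ) w
    simpa [Set.finrank, hk, hS] using this
  set b := stdOrthonormalBasis ℂ S with hb
  set U : Fin k → Matrix (Fin n) (Fin n) ℂ := fun i => mt ((b i : S) : E) with hU
  have hvU : ∀ i, vc (U i) = ((b i : S) : E) := fun i => vc_mt _
  have hUo : ∀ i j, ⟪vc (U i), vc (U j)⟫_ℂ = if i = j then 1 else 0 := by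
    intro i j
    rw [hvU, hvU]
    have := (orthonormal_iff_ite.mp b.orthonormal) i j
    simpa using this
  -- combined family
  set Z : Fin (m + k) → Matrix (Fin n) (Fin n) ℂ := Fin.append Y U with hZ
  have hZo : ∀ a b, ⟪vc (Z a), vc (Z b)⟫_ℂ = if a = b then 1 else 0 := by
    intro a b
    induction a using Fin.addCases with
    | left a =>
      induction b using Fin.addCases with
      | left b =>
        rw [hZ, Fin.append_left, Fin.append_left]
        have := (orthonormal_iff_ite.mp hY) a b
        rw [this]
        by_cases h : a = b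
        · subst h; simp
        · rw [if_neg h, if_neg]
          intro h'
          exact h (Fin.castAdd_injective m k h')
      | right b =>
        rw [hZ, Fin.append_left, Fin.append_right, if_neg]
        · rw [← inner_conj_symm, hvU, hSY a _ (Submodule.coe_mem _)]
          simp
        · intro h'
          have := congrArg Fin.val h'
          simp at this
          omega
    | right a =>
      induction b using Fin.addCases with
      | left b =>
        rw [hZ, Fin.append_left, Fin.append_right, if_neg]
        · rw [hvU]
          exact hSY b _ (Submodule.coe_mem _)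
        · intro h'
          have := congrArg Fin.val h'
          simp at this
          omega
      | right b =>
        rw [hZ, Fin.append_right, Fin.append_right, hUo]
        by_cases h : a = b
        · subst h; simp
        · rw [if_neg h, if_neg]
          intro h'
          exact h (Fin.natAdd_injective k m h')
  have hmain := hR (m + k) Z
    (by
      intro a b
      rw [← inner_vc, hZo b a]
      by_cases h : a = b
      · subst h; simp
      · rw [if_neg h, if_neg (fun h' => h h'.symm)])
  rw [Fin.sum_univ_add] at hmain
  simp only [hZ, Fin.append_left, Fin.append_right] at hmain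
  -- lower bound for the second sum
  have hlow : ∑ a, fro (com X (Y a)) ≤ ∑ i, fro (com X (U i)) := by
    have h1 : ∀ a, fro (com X (Y a)) = ∑ i, ‖⟪vc (U i), w a⟫_ℂ‖ ^ 2 := by
      intro a
      have hwS : w a ∈ S := Submodule.subset_span ⟨a, rfl⟩
      have h2 := b.sum_sq_norm_inner_right ⟨w a, hwS⟩
      have h3 : ‖(⟨w a, hwS⟩ : S)‖ ^ 2 = fro (com X (Y a)) := by
        have : ‖(⟨w a, hwS⟩ : S)‖ = ‖w a‖ := rfl
        rw [this, hw]
        simp only
        rw [norm_vc, fro_conjTranspose]
      rw [← h3, ← h2]
      refine Finset.sum_congr rfl fun i _ => ?_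
      rw [hvU]
      rfl
    have h4 : ∀ i, ∑ a, ‖⟪vc (U i), w a⟫_ℂ‖ ^ 2 ≤ fro (com X (U i)) := by
      intro i
      have h5 := hY.sum_inner_products_le (x := vc ((com X (U i))ᴴ)) (s := Finset.univ)
      rw [norm_vc, fro_conjTranspose] at h5
      refine le_trans (le_of_eq ?_) h5
      refine Finset.sum_congr rfl fun a _ => ?_
      congr 1
      have e1 : ⟪vc (Y a), vc ((com X (U i))ᴴ)⟫_ℂ = star (trace (Y a * com X (U i))) := by
        rw [inner_vc, ← Matrix.conjTranspose_mul, Matrix.trace_conjTranspose]
      have e2 : ⟪w a, vc (U i)⟫_ℂ = trace (U i * com X (Y a)) := by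
        rw [hw]
        simp only
        rw [inner_vc, conjTranspose_conjTranspose]
      rw [e1, norm_star, trace_alt, norm_neg, ← e2, norm_inner_symm]
    simp_rw [h1]
    rw [Finset.sum_comm]
    exact Finset.sum_le_sum fun i _ => h4 i
  linarith

end Pool.Agent.Y266.LS
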