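import Pool.Agent.Y266.LS.Gram

/-! Orthogonal families in any order: the bounds by the norms. -/

set_option autoImplicit false

open Matrix Finset Pool.Agent.W781.LW Pool.Agent.W181.LW Pool.Agent.W591.LW

namespace Pool.Agent.Y266.LS

variable {𝕜 : Type} [RCLike 𝕜] {n : ℕ}

/-- a sum over the first `r` places of a rearrangement is a sum over at most `r` places -/
theorem first_le {k r : ℕ} (f : Fin k → ℝ) (σ : Equiv.Perm (Fin k)) (R : ℝ)
    (hR : ∀ S : Finset (Fin k), S.card ≤ r → ∑ a ∈ S, f a ≤ R) :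
    ∑ a : Fin k, (if (a : ℕ) < r then (1 : ℝ) else 0) * f (σ a) ≤ R := by
  classical
  set S : Finset (Fin k) := (Finset.univ.filter (fun a : Fin k => (a : ℕ) < r)).map
    σ.toEmbedding with hS
  have hcard : S.card ≤ r := by
    rw [hS, Finset.card_map]
    have h1 : (Finset.univ.filter (fun a : Fin k => (a : ℕ) < r)).card ≤
        (Finset.range r).card := by
      refine Finset.card_le_card_of_injOn (fun a => (a : ℕ)) ?_ ?_
      · intro a ha
        simpa using ha
      · intro a _ b _ h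
        exact Fin.ext h
    simpa using h1
  have h2 := hR S hcard
  rw [hS, Finset.sum_map] at h2
  refine le_trans (le_of_eq ?_) h2
  rw [Finset.sum_filter]
  refine Finset.sum_congr rfl fun a _ => ?_
  simp only [Equiv.coe_toEmbedding]
  split_ifs <;> simp

theorem sorted_exists {k : ℕ} (f : Fin k → ℝ) :
    ∃ σ : Equiv.Perm (Fin k), Antitone (fun a => f (σ a)) := by
  refine ⟨Tuple.sort (fun a => -f a), ?_⟩
  have h := Tuple.monotone_sort (fun a => -f a)
  intro a b hab
  have := h hab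
  simpa using this

theorem orth2 (k : ℕ) (B : Matrix (Fin n) (Fin n) 𝕜) (C : Fin k → Matrix (Fin n) (Fin n) 𝕜)
    (hor : ∀ a b, a ≠ b → trace (C a * (C b)ᴴ) = 0)
    (hiso : ∀ a b, trace (C a * comm B (C b)) = 0) (M R : ℝ)
    (hM : ∀ S : Finset (Fin k), S.card ≤ 1 → ∑ a ∈ S, fsq (C a) ≤ M)
    (hR : ∀ S : Finset (Fin k), S.card ≤ n - 1 → ∑ a ∈ S, fsq (C a) ≤ R) :
    ∑ a, fsq (comm B (C a)) ≤ (M + R) * fsq (tf B) := by
  obtain ⟨σ, hσ⟩ := sorted_exists (fun a => fsq (C a))
  have hcomm : ∀ Y : Matrix (Fin n) (Fin n) 𝕜, comm (tf B) Y = comm B Y := by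
    intro Y
    unfold comm tf
    simp [Matrix.sub_mul, Matrix.mul_sub]
  have h := o2K k (tf B) (fun a => C (σ a))
    (fun a b hab => hor _ _ (fun h => hab (σ.injective h))) hσ
    (fun a b => by rw [hcomm]; exact hiso _ _)
  simp only [hcomm] at h
  rw [Equiv.sum_comp σ (fun a => fsq (comm B (C a)))] at h
  refine h.trans (mul_le_mul_of_nonneg_right ?_ (fsq_nonneg _))
  have h1 := first_le (fun a => fsq (C a)) σ M hM
  have h2 := first_le (fun a => fsq (C a)) σ R hR
  have e : ∑ a : Fin k, w2 n a * fsq (C (σ a)) =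
      ∑ a : Fin k, (if (a : ℕ) < 1 then (1 : ℝ) else 0) * fsq (C (σ a)) +
      ∑ a : Fin k, (if (a : ℕ) < n - 1 then (1 : ℝ) else 0) * fsq (C (σ a)) := by
    rw [← Finset.sum_add_distrib]
    refine Finset.sum_congr rfl fun a _ => ?_
    unfold w2
    ring
  rw [e]
  exact add_le_add h1 h2

theorem orth1 (k : ℕ) (B : Matrix (Fin n) (Fin n) 𝕜) (C : Fin k → Matrix (Fin n) (Fin n) 𝕜)
    (hor : ∀ a b, a ≠ b → trace (C a * (C b)ᴴ) = 0) (M R : ℝ)
    (hM : ∀ S : Finset (Fin k), S.card ≤ 2 → ∑ a ∈ S, fsq (C a) ≤ M)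
    (hR : ∀ S : Finset (Fin k), S.card ≤ 2 * n - 2 → ∑ a ∈ S, fsq (C a) ≤ R) :
    ∑ a, fsq (comm B (C a)) ≤ (M + R) * fsq (tf B) := by
  obtain ⟨σ, hσ⟩ := sorted_exists (fun a => fsq (C a))
  have hcomm : ∀ Y : Matrix (Fin n) (Fin n) 𝕜, comm (tf B) Y = comm B Y := by
    intro Y
    unfold comm tf
    simp [Matrix.sub_mul, Matrix.mul_sub]
  have h := o1K k (tf B) (fun a => C (σ a))
    (fun a b hab => hor _ _ (fun h => hab (σ.injective h))) hσ
  simp only [hcomm] at h
  rw [Equiv.sum_comp σ (fun a => fsq (comm B (C a)))] at h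
  refine h.trans (mul_le_mul_of_nonneg_right ?_ (fsq_nonneg _))
  have h1 := first_le (fun a => fsq (C a)) σ M hM
  have h2 := first_le (fun a => fsq (C a)) σ R hR
  have e : ∑ a : Fin k, w1 n a * fsq (C (σ a)) =
      ∑ a : Fin k, (if (a : ℕ) < 2 then (1 : ℝ) else 0) * fsq (C (σ a)) +
      ∑ a : Fin k, (if (a : ℕ) < 2 * n - 2 then (1 : ℝ) else 0) * fsq (C (σ a)) := by
    rw [← Finset.sum_add_distrib]
    refine Finset.sum_congr rfl fun a _ => ?_
    unfold w1
    ring
  rw [e]
  exact add_le_add h1 h2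

/-- the trace-free part has the smaller norm -/
theorem fsq_tf_le (B : Matrix (Fin n) (Fin n) 𝕜) : fsq (tf B) ≤ fsq B := by
  rcases Nat.eq_zero_or_pos n with h0 | hn
  · subst h0
    simp [fsq]
  · have hn' : (n : 𝕜) ≠ 0 := by exact_mod_cast hn.ne'
    set c : 𝕜 := trace B / (n : 𝕜) with hc
    -- the off-diagonal entries agree, the diagonal ones are handled by the variance formula
    have h1 : ∀ A : Matrix (Fin n) (Fin n) 𝕜, (fsq A : ℝ) = RCLike.re (trace (A * Aᴴ)) := by
      intro A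
      unfold fsq
      simp only [Matrix.trace, Matrix.diag_apply, Matrix.mul_apply, Matrix.conjTranspose_apply,
        map_sum]
      refine Finset.sum_congr rfl fun i _ => Finset.sum_congr rfl fun j _ => ?_
      rw [RCLike.star_def, RCLike.mul_conj]
      norm_cast
    have h2 : trace (tf B * (tf B)ᴴ) = trace (B * Bᴴ) - ((n : ℝ) * ‖c‖ ^ 2 : ℝ) := by
      unfold tf
      rw [← hc, Matrix.conjTranspose_sub, Matrix.conjTranspose_smul, Matrix.conjTranspose_one]
      simp only [Matrix.sub_mul, Matrix.mul_sub, Matrix.smul_mul, Matrix.mul_smul, Matrix.one_mul,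
        Matrix.mul_one, Matrix.trace_sub, Matrix.trace_smul, Matrix.trace_one, smul_eq_mul,
        Matrix.trace_conjTranspose, Fintype.card_fin]
      have h3 : trace B = c * n := by rw [hc]; field_simp
      have h4 : c * star c = ((‖c‖ ^ 2 : ℝ) : 𝕜) := by
        rw [RCLike.star_def, RCLike.mul_conj]
        norm_cast
      have h5 : star ((n : 𝕜)) = n := by simp
      rw [h3, star_mul', h5]
      push_cast at h4 ⊢
      linear_combination (-(n : 𝕜)) * h4
    rw [h1, h1, h2]
    simp only [map_sub, RCLike.ofReal_re]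
    have : 0 ≤ (n : ℝ) * ‖c‖ ^ 2 := by positivity
    linarith

end Pool.Agent.Y266.LS
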