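import Pool.Agent.W781.LW.Main
import Pool.Agent.Y266.LS.Half

/-! Partial sums: orthonormal and isotropic orthonormal families. -/

set_option autoImplicit false

open Matrix Finset Pool.Agent.W781.LW Pool.Agent.W181.LW

namespace Pool.Agent.Y266.LS

theorem sum_ind (m r : ℕ) :
    ∑ j ∈ Finset.range m, (if j < r then (1 : ℝ) else 0) = ((min m r : ℕ) : ℝ) := by
  rw [Finset.sum_boole]
  congr 1
  have : (Finset.range m).filter (fun j => j < r) = Finset.range (min m r) := by
    ext j; simp
  rw [this, Finset.card_range]

theorem sum_w1 (n m : ℕ) :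
    ∑ j ∈ Finset.range m, w1 n j = ((min m 2 + min m (2 * n - 2) : ℕ) : ℝ) := by
  unfold w1
  rw [Finset.sum_add_distrib, sum_ind, sum_ind]
  push_cast
  ring

theorem sum_w2 (n m : ℕ) :
    ∑ j ∈ Finset.range m, w2 n j = ((min m 1 + min m (n - 1) : ℕ) : ℝ) := by
  unfold w2
  rw [Finset.sum_add_distrib, sum_ind, sum_ind]
  push_cast
  ring

theorem com_small {n : ℕ} (hn : n ≤ 1) (X Y : Matrix (Fin n) (Fin n) ℂ) : com X Y = 0 := by
  have hs : Subsingleton (Fin n) := by
    rcases n with _ | _ | n
    · infer_instance
    · exact (inferInstance : Subsingleton (Fin 1))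
    · omega
  ext i j
  have : j = i := Subsingleton.elim _ _
  subst this
  simp only [com, Matrix.sub_apply, Matrix.mul_apply, Matrix.zero_apply]
  rw [sub_eq_zero]
  refine Finset.sum_congr rfl fun k _ => ?_
  have : k = j := Subsingleton.elim _ _
  subst this
  ring

theorem fro_zero' {n : ℕ} : fro (0 : Matrix (Fin n) (Fin n) ℂ) = 0 := by
  simp [fro]

/-- the bound by the trace -/
theorem two_n (n m : ℕ) (X : Matrix (Fin n) (Fin n) ℂ) (Y : Fin m → Matrix (Fin n) (Fin n) ℂ)
    (hY : ∀ a b, trace (Y a * (Y b)ᴴ) = if a = b then 1 else 0) :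
    ∑ a, fro (com X (Y a)) ≤ 2 * n * fro X := by
  by_cases h0 : fro X = 0
  · have hX : X = 0 := eq_zero_of_fro X h0
    subst hX
    simp [com, fro]
  · have hpos : 0 < fro X := lt_of_le_of_ne (fro_nonneg X) (Ne.symm h0)
    set c : ℝ := (Real.sqrt (fro X))⁻¹ with hc
    have hc2 : c ^ 2 = (fro X)⁻¹ := by
      rw [hc, inv_pow, Real.sq_sqrt hpos.le]
    set X' : Matrix (Fin n) (Fin n) ℂ := (c : ℂ) • X with hX'
    have hn : ∀ A : Matrix (Fin n) (Fin n) ℂ, fro ((c : ℂ) • A) = (fro X)⁻¹ * fro A := by
      intro A
      rw [fro_smul, Complex.norm_real, Real.norm_eq_abs, sq_abs, hc2]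
    have h1 : ∑ i, ∑ j, ‖X' i j‖ ^ 2 = 1 := by
      have := hn X
      unfold fro at this
      rw [hX', this]
      exact inv_mul_cancel₀ h0
    have h2 := s05813 ℂ n X' h1 (max m n + 1) m (by omega) (by omega) Y (by
      intro a b
      have h3 := hY b a
      rw [Pool.Agent.W591.LW.trace_eq] at h3
      rw [h3]
      by_cases h : a = b
      · subst h; simp
      · rw [if_neg h, if_neg (fun h' => h h'.symm)])
    rw [if_neg (by omega)] at h2
    have h4 : ∀ a, ∑ i, ∑ j, ‖(X' * Y a - Y a * X') i j‖ ^ 2 = (fro X)⁻¹ * fro (com X (Y a)) := by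
      intro a
      have : X' * Y a - Y a * X' = (c : ℂ) • com X (Y a) := by
        rw [hX', com, Matrix.smul_mul, Matrix.mul_smul, smul_sub]
      rw [this]
      exact hn _
    simp_rw [h4] at h2
    rw [← Finset.mul_sum, inv_mul_le_iff₀ hpos] at h2
    linarith

theorem fro_one {n m : ℕ} {Y : Fin m → Matrix (Fin n) (Fin n) ℂ}
    (hY : ∀ a b, trace (Y a * (Y b)ᴴ) = if a = b then 1 else 0) (a : Fin m) : fro (Y a) = 1 := by
  have h := hY a a
  rw [trace_self, if_pos rfl] at h
  exact_mod_cast h

theorem p1 : S_P1 := by
  intro n m X Y hY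
  rw [sum_w1]
  have hX := fro_nonneg X
  by_cases hn : n ≤ 1
  · have : ∑ a, fro (com X (Y a)) = 0 := by
      refine Finset.sum_eq_zero fun a _ => ?_
      rw [com_small hn, fro_zero']
    rw [this]
    positivity
  · rcases Nat.lt_or_ge m 2 with hm | hm
    · rcases Nat.lt_or_ge m 1 with h0 | h1
      · have : m = 0 := by omega
        subst this
        simp
      · have : m = 1 := by omega
        subst this
        have h := iso n 1 X Y hY (by
          intro a b
          have hab : a = b := Subsingleton.elim _ _
          subst hab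
          have := trace_alt X (Y a) (Y a)
          have h2 : (2 : ℂ) * trace (Y a * com X (Y a)) = 0 := by linear_combination this
          simpa using h2)
        have e : min 1 2 + min 1 (2 * n - 2) = 2 := by omega
        rw [e]
        push_cast at h ⊢
        linarith
    · have h := main n m X Y 1 zero_le_one (fun a b hab => by rw [hY, if_neg hab])
        (fun a => (fro_one hY a).le)
      have hs : ∑ a, fro (Y a) = (m : ℝ) := by simp [fro_one hY]
      rw [hs] at h
      have h2 := two_n n m X Y hY
      rcases Nat.le_total m (2 * n - 2) with hle | hle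
      · have e : min m 2 + min m (2 * n - 2) = 2 + m := by omega
        rw [e]
        push_cast
        linarith
      · have e : min m 2 + min m (2 * n - 2) = 2 * n := by omega
        rw [e]
        push_cast
        linarith

theorem p2 : S_P2 := by
  intro n m X Y hY hiso
  rw [sum_w2]
  have hX := fro_nonneg X
  by_cases hn : n = 0
  · have : ∑ a, fro (com X (Y a)) = 0 := by
      refine Finset.sum_eq_zero fun a _ => ?_
      rw [com_small (by omega), fro_zero']
    rw [this]
    positivity
  · rcases Nat.eq_zero_or_pos m with h0 | h1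
    · subst h0
      simp
    · have h := iso n m X Y hY hiso
      have h2 := half n X (2 * n * fro X) (fun m Z hZ => two_n n m X Z hZ) m Y hY hiso
      rcases Nat.le_total m (n - 1) with hle | hle
      · have e : min m 1 + min m (n - 1) = m + 1 := by omega
        rw [e]
        push_cast
        linarith
      · have e : min m 1 + min m (n - 1) = n := by omega
        rw [e]
        linarith

end Pool.Agent.Y266.LS
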